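import Mathlib
import Pool.Agent.Results.MP_19f0f5_gt.AllDimensionsAllPoints

/-!
# No set of at most two point sources determines the planar convex bodies

For every set `P` of at most two points of the plane there are two different convex bodies, with
nonempty interiors and containing no point of `P`, which have the same chord functions at all
points of `P`. So every `k ≥ 1` for which all sets of `k` points with no three collinear determine
the convex bodies is at least `3`: the conjecture `N = 2` is false.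
-/

set_option autoImplicit false

open Set

namespace Pool.Agent.Results.MP_e55421_gt.TwoPointsNeverSuffice

/-- the plane -/
abbrev E2 : Type := EuclideanSpace ℝ (Fin 2)

/-- the line through `x` which makes the angle `θ` with the first axis -/
noncomputable def ray (x : E2) (θ : ℝ) : Set E2 :=
  {p | ∃ t : ℝ, p = x + t • (!₂[Real.cos θ, Real.sin θ] : E2)}

/-- the chord function of `K` at `x`: the length of `K ∩ ℓ(x, θ)`, zero for the empty set -/
noncomputable def chordFn (K : Set E2) (x : E2) (θ : ℝ) : ℝ := Metric.diam (K ∩ ray x θ)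

/-- compact convex sets with nonempty interior -/
def ConvexBody (K : Set E2) : Prop := Convex ℝ K ∧ IsCompact K ∧ (interior K).Nonempty

/-- convex bodies with the same chord functions at all points of `P` coincide -/
def Determines (P : Set E2) : Prop :=
  ∀ K L : Set E2, ConvexBody K → ConvexBody L →
    (∀ x ∈ P, ∀ θ ∈ Ico (0 : ℝ) Real.pi, chordFn K x θ = chordFn L x θ) → K = L

/-- no three distinct points of `P` lie on a line -/
def NoThreeCollinear (P : Set E2) : Prop :=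
  ∀ a ∈ P, ∀ b ∈ P, ∀ c ∈ P, a ≠ b → a ≠ c → b ≠ c → ¬ Collinear ℝ ({a, b, c} : Set E2)

/-- every set of `k` distinct points with no three collinear determines the convex bodies -/
def Suffices (k : ℕ) : Prop :=
  ∀ P : Finset E2, P.card = k → NoThreeCollinear (P : Set E2) → Determines (P : Set E2)

theorem chord_eq (K : Set E2) (x : E2) (θ : ℝ) :
    chordFn K x θ = Pool.Agent.Results.MP_19f0f5_gt.AllDimensionsAllPoints.chordLength K x
      (!₂[Real.cos θ, Real.sin θ] : E2) := rfl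

theorem pair (x₁ x₂ : E2) (hx : x₁ ≠ x₂) (r : ℝ) (hr : 0 < r) :
    ∃ K L : Set E2, ConvexBody K ∧ ConvexBody L ∧ K ≠ L ∧
      x₁ ∉ K ∧ x₁ ∉ L ∧ x₂ ∉ K ∧ x₂ ∉ L ∧
      (∀ p ∈ K ∪ L, ∃ q ∈ line[ℝ, x₁, x₂], dist p q ≤ r) ∧
      (∀ θ : ℝ, chordFn K x₁ θ = chordFn L x₁ θ) ∧ ∀ θ : ℝ, chordFn K x₂ θ = chordFn L x₂ θ := by
  obtain ⟨K, L, -, -, h⟩ :=
    Pool.Agent.Results.MP_19f0f5_gt.AllDimensionsAllPoints.result E2
      (by simp) x₁ x₂ hx
  obtain ⟨⟨h1, h2, h3, h4, h5⟩, ⟨k1, k2, k3, k4, k5⟩, hne, hc1, hc2, hn⟩ := h r hr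
  exact ⟨K r, L r, ⟨h1, h2, h5.mono inter_subset_right⟩, ⟨k1, k2, k5.mono inter_subset_right⟩,
    hne, h3, k3, h4, k4, hn, fun θ => hc1 _, fun θ => hc2 _⟩

theorem two (P : Set E2) (hP : P.encard ≤ 2) (r : ℝ) (hr : 0 < r) :
    ∃ x₁ x₂ : E2, x₁ ≠ x₂ ∧ P ⊆ {x₁, x₂} ∧ ∃ K L : Set E2, ConvexBody K ∧ ConvexBody L ∧ K ≠ L ∧
      (∀ x ∈ P, x ∉ K ∧ x ∉ L) ∧ (∀ p ∈ K ∪ L, ∃ q ∈ line[ℝ, x₁, x₂], dist p q ≤ r) ∧
      ∀ x ∈ P, ∀ θ : ℝ, chordFn K x θ = chordFn L x θ := by
  obtain ⟨x₁, x₂, hx, hsub⟩ : ∃ x₁ x₂ : E2, x₁ ≠ x₂ ∧ P ⊆ {x₁, x₂} := by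
    have hfin : P.Finite := Set.finite_of_encard_le_coe hP
    rcases P.eq_empty_or_nonempty with rfl | ⟨a, ha⟩
    · obtain ⟨a, b, hab⟩ := exists_pair_ne E2
      exact ⟨a, b, hab, empty_subset _⟩
    · by_cases h : ∃ b ∈ P, b ≠ a
      · obtain ⟨b, hb, hba⟩ := h
        refine ⟨a, b, hba.symm, fun c hc => ?_⟩
        by_contra hcc
        simp only [mem_insert_iff, mem_singleton_iff, not_or] at hcc
        have hsub : ({a, b, c} : Set E2) ⊆ P := by
          rintro z (rfl | rfl | rfl)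
          · exact ha
          · exact hb
          · exact hc
        have h3 : ({a, b, c} : Set E2).encard = 3 :=
          Set.encard_eq_three.2 ⟨a, b, c, hba.symm, Ne.symm hcc.1, Ne.symm hcc.2, rfl⟩
        have := (Set.encard_le_encard hsub).trans hP
        rw [h3] at this
        exact absurd this (by decide)
      · push Not at h
        obtain ⟨b, hb⟩ := exists_ne a
        exact ⟨a, b, hb.symm, fun c hc => by rw [h c hc]; exact mem_insert _ _⟩
  obtain ⟨K, L, hK, hL, hne, a1, a2, a3, a4, hn, c1, c2⟩ := pair x₁ x₂ hx r hr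
  refine ⟨x₁, x₂, hx, hsub, K, L, hK, hL, hne, ?_, hn, ?_⟩
  · intro x hxP
    rcases hsub hxP with rfl | h
    · exact ⟨a1, a2⟩
    · rw [mem_singleton_iff] at h
      subst h
      exact ⟨a3, a4⟩
  · intro x hxP θ
    rcases hsub hxP with rfl | h
    · exact c1 θ
    · rw [mem_singleton_iff] at h
      subst h
      exact c2 θ

/-- No set of at most two points determines the planar convex bodies, even among bodies which
contain none of the points and lie near a line through them; hence `N ≥ 3`. -/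
theorem result :
    (∀ P : Set E2, P.encard ≤ 2 → ∀ r : ℝ, 0 < r →
      ∃ x₁ x₂ : E2, x₁ ≠ x₂ ∧ P ⊆ {x₁, x₂} ∧ ∃ K L : Set E2,
        ConvexBody K ∧ ConvexBody L ∧ K ≠ L ∧ (∀ x ∈ P, x ∉ K ∧ x ∉ L) ∧
        (∀ p ∈ K ∪ L, ∃ q ∈ line[ℝ, x₁, x₂], dist p q ≤ r) ∧
        ∀ x ∈ P, ∀ θ : ℝ, chordFn K x θ = chordFn L x θ) ∧
    (∀ P : Set E2, P.encard ≤ 2 → ¬ Determines P) ∧
    ∀ k : ℕ, Suffices k → 3 ≤ k := by
  have h2 : ∀ P : Set E2, P.encard ≤ 2 → ¬ Determines P := by
    intro P hP hD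
    obtain ⟨-, -, -, -, K, L, hK, hL, hne, -, -, hc⟩ := two P hP 1 one_pos
    exact hne (hD K L hK hL fun x hx θ _ => hc x hx θ)
  refine ⟨two, h2, fun k hk => ?_⟩
  by_contra hlt
  have hk2 : k ≤ 2 := by omega
  obtain ⟨P, hP⟩ : ∃ P : Finset E2, P.card = k := Infinite.exists_subset_card_eq E2 k
  have hcard : (P : Set E2).encard ≤ 2 := by
    rw [Set.encard_coe_eq_coe_finsetCard, hP]
    exact_mod_cast hk2
  refine h2 _ hcard (hk P hP ?_)
  intro a ha b hb c hc hab hac hbc _
  have h3 : ({a, b, c} : Set E2).encard = 3 :=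
    Set.encard_eq_three.2 ⟨a, b, c, hab, hac, hbc, rfl⟩
  have hsub : ({a, b, c} : Set E2) ⊆ P := by
    rintro z (rfl | rfl | rfl)
    · exact ha
    · exact hb
    · exact hc
  have := (Set.encard_le_encard hsub).trans hcard
  rw [h3] at this
  exact absurd this (by decide)

end Pool.Agent.Results.MP_e55421_gt.TwoPointsNeverSuffice
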